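import Pool.Agent.Helper87.HQ.St

/-!
# Project HQ, module C4: the set `Zs` is given by polynomial equations and inequalities
-/

set_option autoImplicit false

namespace Pool.Agent.Helper38.HQ

open Pool.Agent.Helper87.HQ
open MvPolynomial

/-- Polynomial functions. -/
private def IsP {ι : Type} (g : (ι → ℝ) → ℝ) : Prop := ∃ p : MvPolynomial ι ℝ, ∀ z, g z = eval z p

private theorem isP_const {ι : Type} (c : ℝ) : IsP (fun _ : ι → ℝ => c) :=
  ⟨C c, fun z => by simp⟩

private theorem isP_coord {ι : Type} (i : ι) : IsP (fun z : ι → ℝ => z i) :=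
  ⟨X i, fun z => by simp⟩

private theorem IsP.add {ι : Type} {g h : (ι → ℝ) → ℝ} (hg : IsP g) (hh : IsP h) :
    IsP (fun z => g z + h z) := by
  obtain ⟨p, hp⟩ := hg
  obtain ⟨q, hq⟩ := hh
  exact ⟨p + q, fun z => by simp only [hp, hq, map_add]⟩

private theorem IsP.sub {ι : Type} {g h : (ι → ℝ) → ℝ} (hg : IsP g) (hh : IsP h) :
    IsP (fun z => g z - h z) := by
  obtain ⟨p, hp⟩ := hg
  obtain ⟨q, hq⟩ := hh
  exact ⟨p - q, fun z => by simp only [hp, hq, map_sub]⟩

private theorem IsP.mul {ι : Type} {g h : (ι → ℝ) → ℝ} (hg : IsP g) (hh : IsP h) :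
    IsP (fun z => g z * h z) := by
  obtain ⟨p, hp⟩ := hg
  obtain ⟨q, hq⟩ := hh
  exact ⟨p * q, fun z => by simp only [hp, hq, map_mul]⟩

private theorem IsP.pow {ι : Type} {g : (ι → ℝ) → ℝ} (hg : IsP g) (n : ℕ) :
    IsP (fun z => g z ^ n) := by
  obtain ⟨p, hp⟩ := hg
  exact ⟨p ^ n, fun z => by simp only [hp, map_pow]⟩

private theorem IsP.ite {ι : Type} {g h : (ι → ℝ) → ℝ} (hg : IsP g) (hh : IsP h)
    (c : Prop) [Decidable c] : IsP (fun z => if c then g z else h z) := by
  by_cases hc : c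
  · simp only [if_pos hc]; exact hg
  · simp only [if_neg hc]; exact hh

private theorem IsP.sum {ι κ : Type} (s : Finset κ) {g : κ → (ι → ℝ) → ℝ}
    (hg : ∀ k, IsP (g k)) : IsP (fun z => ∑ k ∈ s, g k z) := by
  choose p hp using hg
  exact ⟨∑ k ∈ s, p k, fun z => by simp only [hp, map_sum]⟩

private theorem sa_eq {ι : Type} {g h : (ι → ℝ) → ℝ} (hg : IsP g) (hh : IsP h) :
    SA {z : ι → ℝ | g z = h z} := by
  obtain ⟨p, hp⟩ := hg
  obtain ⟨q, hq⟩ := hh
  have e : {z : ι → ℝ | g z = h z} = {z | eval z (p - q) = 0} := by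
    ext z
    simp only [Set.mem_ofPred_eq, hp, hq, map_sub, sub_eq_zero]
  rw [e]
  exact SA.eq _

private theorem sa_le {ι : Type} {g h : (ι → ℝ) → ℝ} (hg : IsP g) (hh : IsP h) :
    SA {z : ι → ℝ | g z ≤ h z} := by
  obtain ⟨p, hp⟩ := hg
  obtain ⟨q, hq⟩ := hh
  have e : {z : ι → ℝ | g z ≤ h z} = {z | 0 ≤ eval z (q - p)} := by
    ext z
    simp only [Set.mem_ofPred_eq, hp, hq, map_sub, sub_nonneg]
  rw [e]
  exact SA.le _

private theorem sa_and {ι : Type} {P Q : (ι → ℝ) → Prop} (hP : SA {z | P z}) (hQ : SA {z | Q z}) :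
    SA {z | P z ∧ Q z} := SA.inter _ _ hP hQ

private theorem sa_or {ι : Type} {P Q : (ι → ℝ) → Prop} (hP : SA {z | P z}) (hQ : SA {z | Q z}) :
    SA {z | P z ∨ Q z} := SA.union _ _ hP hQ

private theorem sa_univ {ι : Type} : SA {_z : ι → ℝ | True} := by
  have h := sa_eq (isP_const (ι := ι) 0) (isP_const 0)
  have e : {_z : ι → ℝ | True} = {z : ι → ℝ | (0 : ℝ) = 0} := by
    ext z
    simp
  rw [e]
  exact h

private theorem sa_forall_mem {ι κ : Type} (s : Finset κ) {P : κ → (ι → ℝ) → Prop}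
    (h : ∀ k, SA {z | P k z}) : SA {z | ∀ k ∈ s, P k z} := by
  classical
  induction s using Finset.induction_on with
  | empty =>
    have e : {z : ι → ℝ | ∀ k ∈ (∅ : Finset κ), P k z} = {_z : ι → ℝ | True} := by
      ext z
      simp
    rw [e]
    exact sa_univ
  | insert a s ha ih =>
    have e : {z : ι → ℝ | ∀ k ∈ insert a s, P k z} =
        {z : ι → ℝ | P a z ∧ ∀ k ∈ s, P k z} := by
      ext z
      simp only [Set.mem_ofPred_eq, Finset.forall_mem_insert]
    rw [e]
    exact sa_and (h a) ih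

private theorem sa_forall {ι κ : Type} [Fintype κ] {P : κ → (ι → ℝ) → Prop}
    (h : ∀ k, SA {z | P k z}) : SA {z | ∀ k, P k z} := by
  have h1 := sa_forall_mem (Finset.univ : Finset κ) h
  have e : {z : ι → ℝ | ∀ k, P k z} = {z | ∀ k ∈ (Finset.univ : Finset κ), P k z} := by
    ext z
    simp
  rw [e]
  exact h1

private theorem sa_cond {ι : Type} {a b : (ι → ℝ) → ℝ} (ha : IsP a) (hb : IsP b) (κ p q : ℝ) :
    SA {z : ι → ℝ | Cond κ (a z) (b z) p q} := by
  unfold Cond
  refine sa_and (sa_le ((ha.mul (isP_const _)).add (hb.mul (isP_const _))) (isP_const _)) ?_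
  refine sa_and (sa_le ((ha.mul (isP_const _)).add (hb.mul (isP_const _))) (isP_const _)) ?_
  refine sa_or (sa_le ((ha.pow 2).add (hb.pow 2)) (isP_const _)) ?_
  exact sa_or (sa_le ((hb.mul (isP_const _)).sub (ha.mul (isP_const _))) (isP_const _))
    (sa_le (isP_const _) ((hb.mul (isP_const _)).sub (ha.mul (isP_const _))))

private theorem sa_sol (G : MetricGraph) (α : G.V → ℝ) (κ : ℝ) {ι : Type}
    {A B : G.E → (ι → ℝ) → ℝ} {W : G.V → (ι → ℝ) → ℝ} (hA : ∀ f, IsP (A f)) (hB : ∀ f, IsP (B f))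
    (hW : ∀ v, IsP (W v)) :
    SA {z : ι → ℝ | Sol G α κ (fun f => A f z) (fun f => B f z) (fun v => W v z)} := by
  unfold Sol
  refine sa_and (sa_forall fun f => sa_and (sa_eq (hA f) (hW _)) (sa_eq
    (((hA f).mul (isP_const _)).add ((hB f).mul (isP_const _))) (hW _))) ?_
  refine sa_forall fun v => sa_eq (IsP.sum _ fun f => ?_) ((isP_const _).mul (hW v))
  refine (((isP_const _).mul (hB f)).ite (isP_const 0) _).add (IsP.ite ?_ (isP_const 0) _)
  exact (isP_const _).mul (((hA f).mul (isP_const _)).sub ((hB f).mul (isP_const _)))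

theorem hC4 : StC4 := by
  intro G α κ N e p r
  unfold Zs
  refine sa_and (sa_le (isP_const 0) (isP_coord _)) ?_
  refine sa_and (sa_le (isP_coord _) (isP_const r)) ?_
  refine sa_and (sa_le (isP_const 0) (isP_coord _)) ?_
  refine sa_and (sa_eq (((isP_coord _).pow 2).add ((isP_coord _).pow 2)) (isP_const 1)) ?_
  refine sa_and (sa_eq (isP_coord _)
    (((isP_coord _).mul (isP_const _)).sub ((isP_coord _).mul (isP_const _)))) ?_
  refine sa_and (sa_eq (isP_coord _)
    (((isP_coord _).mul (isP_const _)).add ((isP_coord _).mul (isP_const _)))) ?_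
  refine sa_and (sa_sol G α κ (fun f => isP_coord _) (fun f => isP_coord _)
    (fun v => isP_coord _)) ?_
  refine sa_and (sa_forall fun v => sa_le (isP_coord _) (isP_const 1)) ?_
  exact sa_forall fun f => sa_forall fun j => sa_cond (isP_coord _) (isP_coord _) _ _ _

end Pool.Agent.Helper38.HQ
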